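import Pool.Agent.H337_stamp.Asm

/-!
Postage stamp problem, question Q2: for `k = 4` no finite set of polynomials accounts for the
values `n(h, 4)`.

`Pool.Agent.H337_stamp.stamp h k` is `n(h, k)`: the largest `n` for which some set of `k` positive
integers is an `h`-basis for `n` (`Pool.Agent.H337_stamp.stampMax` shows that this maximum exists).

Proof: `n(h, 4) / h ^ 4` tends to `(24 b ^ 4 - 35 b ^ 3 + 12 b ^ 2 - b) / 6`, where
`b = 0.24392976...` is a root of `96 b ^ 3 - 105 b ^ 2 + 24 b - 1`; this number is irrational.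
-/

namespace Pool.Agent.Results.MP_da66b4_nt.NoPolynomialsForFourStamps

open Pool.Agent.H337_stamp

/-- For every finite set `S` of real polynomials (of any degrees) there are only finitely many `h`
for which `n(h, 4)` is one of the values `P(h)`, `P ∈ S`. -/
theorem result (S : Set (Polynomial ℝ)) (hS : S.Finite) :
    {h : ℕ | ∃ P ∈ S, (stamp h 4 : ℝ) = P.eval (h : ℝ)}.Finite := by
  have h : {h : ℕ | ∃ P ∈ S, (stamp h 4 : ℝ) = P.eval (h : ℝ)} =
      ⋃ P ∈ S, {h : ℕ | (stamp h 4 : ℝ) = P.eval (h : ℝ)} := by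
    ext h; simp
  rw [h]
  exact hS.biUnion fun P _ => final P

end Pool.Agent.Results.MP_da66b4_nt.NoPolynomialsForFourStamps
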